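import Pool.Agent.Run7.h831.D3reg
import Pool.Agent.W554.TW.Prs

/-!
# Project D3 (helper369): the weights of the sign patterns

Adapted from `Pool/Agent/W554/TW/Prs.lean` by helper554.
-/

set_option autoImplicit false

namespace Run7.h831.D3

open Finset Pool.Agent.W262.RK Pool.Agent.W262.TW

lemma symm_single {ι : Type} [DecidableEq ι] (N : Finset ι) (k : ι) :
    symmDiff N {k} = if k ∈ N then N.erase k else insert k N := by
  ext x
  rw [Finset.mem_symmDiff]
  split_ifs with h
  · rw [Finset.mem_erase, Finset.mem_singleton]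
    constructor
    · rintro (⟨h1, h2⟩ | ⟨h1, h2⟩)
      · exact ⟨h2, h1⟩
      · subst h1
        exact absurd h h2
    · rintro ⟨h1, h2⟩
      exact Or.inl ⟨h2, h1⟩
  · rw [Finset.mem_insert, Finset.mem_singleton]
    constructor
    · rintro (⟨h1, h2⟩ | ⟨h1, h2⟩)
      · exact Or.inr h1
      · exact Or.inl h1
    · rintro (h1 | h1)
      · subst h1
        exact Or.inr ⟨rfl, h⟩
      · refine Or.inl ⟨h1, ?_⟩
        rintro rfl
        exact h h1

lemma chi_toggle {ι : Type} [DecidableEq ι] (e : ι → ℤ) (he : ∀ i, e i * e i = 1) (N : Finset ι)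
    (k : ι) : ∏ i ∈ symmDiff N {k}, e i = (∏ i ∈ N, e i) * e k := by
  rw [symm_single]
  split_ifs with h
  · rw [← Finset.prod_erase_mul N e h, mul_assoc, he, mul_one]
  · rw [Finset.prod_insert h, mul_comm]

section K

variable {K R : Type} [Fintype K] [DecidableEq K] [Fintype R]

/-- the sign -/
def sg (a : R → K → Bool) (w : R) (j k : K) : ℤ := if a w k ≠ a w j then -1 else 1

omit [Fintype K] [DecidableEq K] [Fintype R] in
lemma sg_sq (a : R → K → Bool) (w : R) (j k : K) : sg a w j k * sg a w j k = 1 := by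
  unfold sg
  split_ifs <;> norm_num

omit [Fintype K] [DecidableEq K] [Fintype R] in
lemma sg_prod (a : R → K → Bool) (w : R) (I : Finset K) (j : {k // k ∈ I})
    (N : Finset {k // k ∈ I}) :
    (-1 : ℤ) ^ (N.filter (fun k : {k // k ∈ I} => a w k ≠ a w j)).card =
      ∏ k ∈ N, sg a w j k := by
  unfold sg
  rw [Finset.prod_ite, Finset.prod_const_one, mul_one, Finset.prod_const]

theorem card_mul (a : R → K → Bool) (ha : ∀ j k : K, j ≠ k → ∃ w, a w j ≠ a w k)
    (γ : K → R → ℤ) (u : K → ℕ) (I : Finset K) (j : {k // k ∈ I}) (p : ℕ) :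
    (ThA a γ u I j p).card * I.card ≤ 2 ^ (I.card - 1) := by
  classical
  set f : Finset {k // k ∈ I} × {k // k ∈ I} → Finset {k // k ∈ I} :=
    fun x => if x.2 = j then x.1 else symmDiff x.1 {x.2} with hf
  have hmap : ∀ x ∈ (ThA a γ u I j p) ×ˢ (univ : Finset {k // k ∈ I}),
      f x ∈ (univ.erase j).powerset := by
    rintro ⟨N, k⟩ hx
    rw [Finset.mem_product] at hx
    have hN := hx.1
    unfold ThA at hN
    rw [Finset.mem_filter, Finset.mem_powerset] at hN
    rw [Finset.mem_powerset]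
    intro x hxx
    rw [Finset.mem_erase]
    refine ⟨?_, Finset.mem_univ _⟩
    rintro rfl
    simp only [hf] at hxx
    split_ifs at hxx with h
    · exact absurd (hN.1 hxx) (by simp)
    · rw [Finset.mem_symmDiff, Finset.mem_singleton] at hxx
      rcases hxx with ⟨h1, _⟩ | ⟨h1, _⟩
      · exact absurd (hN.1 h1) (by simp)
      · exact h h1.symm
  have hprod : ∀ (w : R) (N : Finset {k // k ∈ I}) (k : {k // k ∈ I}),
      ∏ i ∈ f (N, k), sg a w j i = (∏ i ∈ N, sg a w j i) * sg a w j k := by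
    intro w N k
    simp only [hf]
    split_ifs with h
    · subst h
      have : sg a w k k = 1 := by unfold sg; simp
      rw [this, mul_one]
    · exact chi_toggle (fun i : {k // k ∈ I} => sg a w j i) (fun i => sg_sq a w j i) N k
  have hinj : Set.InjOn f ((ThA a γ u I j p) ×ˢ (univ : Finset {k // k ∈ I}) :
      Finset (Finset {k // k ∈ I} × {k // k ∈ I})) := by
    rintro ⟨N, k⟩ hx ⟨N', k'⟩ hx' hff
    rw [Finset.mem_coe, Finset.mem_product] at hx hx'
    have hN := hx.1
    have hN' := hx'.1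
    unfold ThA at hN hN'
    rw [Finset.mem_filter] at hN hN'
    have hkk : k = k' := by
      by_contra hne
      have hne' : (k : K) ≠ k' := fun h => hne (Subtype.ext h)
      obtain ⟨w, hw⟩ := ha k k' hne'
      have e1 := hN.2 w
      have e2 := hN'.2 w
      simp only at e1 e2
      rw [sg_prod] at e1 e2
      have e3 : ∏ i ∈ N, sg a w j i = ∏ i ∈ N', sg a w j i := by
        have h0 : jacobiSym (mm a γ u j w) p ≠ 0 := by
          intro h
          rw [h, zero_mul] at e1
          exact zero_ne_one e1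
        exact mul_left_cancel₀ h0 (e1.trans e2.symm)
      have e4 := hprod w N k
      rw [hff, hprod w N' k', e3] at e4
      have h0 : ∏ i ∈ N', sg a w j i ≠ 0 := by
        intro h
        rw [h, mul_zero] at e2
        exact zero_ne_one e2
      have e5 := mul_left_cancel₀ h0 e4
      unfold sg at e5
      rcases hb : a w (j : K) <;> rcases hb1 : a w (k : K) <;> rcases hb2 : a w (k' : K) <;>
        simp_all
    subst hkk
    have hNN : N = N' := by
      simp only [hf] at hff
      split_ifs at hff with h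
      · exact hff
      · exact symmDiff_left_injective {k} hff
    rw [hNN]
  have h1 := Finset.card_le_card_of_injOn f hmap hinj
  rw [Finset.card_product, Finset.card_univ, Fintype.card_coe, Finset.card_powerset,
    Finset.card_erase_of_mem (Finset.mem_univ j), Finset.card_univ, Fintype.card_coe] at h1
  exact h1

/-- the numbers `γ j w` -/
def gam (a : R → K → Bool) (c : K → R → ℤ) (d0 : ℤ) (g : R → ℤ) (j : K) (w : R) : ℤ :=
  g w * c j w * (if a w j = true then d0 else 1)

theorem card_half (a : R → K → Bool) (ha : ∀ j k : K, j ≠ k → ∃ w, a w j ≠ a w k)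
    (γ : K → R → ℤ) (u : K → ℕ) (I : Finset K) (j : {k // k ∈ I}) (p : ℕ) (w : R)
    (hw : ∀ N : Finset {k // k ∈ I}, N ⊆ univ.erase j →
      N.filter (fun k : {k // k ∈ I} => a w k ≠ a w j) = ∅) :
    ((ThA a γ u I j p).card : ℝ) * I.card ≤
      2 ^ (I.card - 1) * ((1 + Jr (mm a γ u j w) p) / 2) := by
  classical
  rcases Nat.eq_zero_or_pos (ThA a γ u I j p).card with h0 | h0
  · rw [h0, Nat.cast_zero, zero_mul]
    have h1 : (-1 : ℝ) ≤ Jr (mm a γ u j w) p := by
      unfold Jr
      rcases jacobiSym.trichotomy (mm a γ u j w) p with h | h | h <;> rw [h] <;> norm_num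
    have : (0 : ℝ) ≤ (1 + Jr (mm a γ u j w) p) / 2 := by linarith
    positivity
  · obtain ⟨N, hN⟩ := card_pos.1 h0
    have hN' := hN
    unfold ThA at hN'
    rw [Finset.mem_filter, Finset.mem_powerset] at hN'
    have h2 := hN'.2 w
    rw [hw N hN'.1, Finset.card_empty, pow_zero, mul_one] at h2
    have h3 : Jr (mm a γ u j w) p = 1 := by
      unfold Jr
      rw [h2]
      norm_num
    rw [h3]
    have h4 := card_mul a ha γ u I j p
    have h5 : ((ThA a γ u I j p).card : ℝ) * I.card ≤ 2 ^ (I.card - 1) := by exact_mod_cast h4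
    linarith

theorem exists_good (a : R → K → Bool) (c : K → R → ℤ)
    (hc : ∀ j k : K, j ≠ k → ∃ w, (∀ l, a w l = false) ∧ ¬ IsSquare (c j w * c k w))
    (d0 : ℤ) (g : R → ℤ) (hg : ∀ w, g w ≠ 0) (z V : ℕ) (I : Finset K) (hI : I.Nonempty)
    (u : K → ℕ) (hu : u ∈ UA a z V (gam a c d0 g) I) :
    ∃ (j : {k // k ∈ I}) (w : R), ¬ IsSquare (mm a (gam a c d0 g) u j w) ∧
      ∀ N : Finset {k // k ∈ I}, N ⊆ univ.erase j →
        N.filter (fun k : {k // k ∈ I} => a w k ≠ a w j) = ∅ := by
  classical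
  rcases Nat.lt_or_ge 1 I.card with h1 | h1
  · obtain ⟨j, k, hj, hk, hjk⟩ := Finset.one_lt_card_iff.1 h1
    obtain ⟨w, hw, hsq⟩ := hc j k hjk
    have hval : ∀ j : K, mm a (gam a c d0 g) u j w = g w * c j w := by
      intro j
      unfold mm gam
      rw [hw j, if_neg (by simp)]
      have : univ.filter (fun k => a w k ≠ false) = (∅ : Finset K) := by
        rw [Finset.filter_eq_empty_iff]
        intro k _
        rw [hw k]
        simp
      rw [this]
      simp
    have hemp : ∀ (j : {k // k ∈ I}) (N : Finset {k // k ∈ I}), N ⊆ univ.erase j →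
        N.filter (fun k : {k // k ∈ I} => a w k ≠ a w j) = ∅ := by
      intro j N _
      rw [Finset.filter_eq_empty_iff]
      intro k _
      rw [hw k, hw j]
      simp
    by_cases hs : IsSquare (g w * c j w)
    · refine ⟨⟨k, hk⟩, w, ?_, hemp _⟩
      rw [hval]
      rintro ⟨y, hy⟩
      obtain ⟨x, hx⟩ := hs
      apply hsq
      have e1 : g w ^ 2 * (c j w * c k w) = (x * y) ^ 2 := by
        calc g w ^ 2 * (c j w * c k w) = (g w * c j w) * (g w * c k w) := by ring
          _ = (x * x) * (y * y) := by rw [hx, hy]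
          _ = (x * y) ^ 2 := by ring
      have hd : g w ∣ x * y := (Int.pow_dvd_pow_iff two_ne_zero).1 ⟨_, e1.symm⟩
      obtain ⟨e, he⟩ := hd
      refine ⟨e, ?_⟩
      have e2 : g w ^ 2 * (c j w * c k w) = g w ^ 2 * (e * e) := by
        rw [e1, he]; ring
      exact mul_left_cancel₀ (pow_ne_zero 2 (hg w)) e2
    · refine ⟨⟨j, hj⟩, w, ?_, hemp _⟩
      rw [hval]
      exact hs
  · have hcard : I.card = 1 := le_antisymm h1 (card_pos.2 hI)
    obtain ⟨j, hj⟩ := card_eq_one.1 hcard
    subst hj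
    rw [mem_UA] at hu
    obtain ⟨w, hw⟩ := hu.2.2 j rfl
    refine ⟨⟨j, by simp⟩, w, hw, ?_⟩
    intro N hN
    rw [Finset.filter_eq_empty_iff]
    intro k hk
    have h2 := hN hk
    rw [Finset.mem_erase] at h2
    exfalso
    apply h2.1
    apply Subtype.ext
    have := k.2
    rw [Finset.mem_singleton] at this
    exact this

theorem UA_bounds {a : R → K → Bool} {z V : ℕ} {γ : K → R → ℤ} {I : Finset K} {u : K → ℕ}
    (hV : 1 ≤ V) (hu : u ∈ UA a z V γ I) : (∀ k, 1 ≤ u k ∧ u k ≤ V) := by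
  classical
  rw [mem_UA] at hu
  intro k
  have h := hu.1 k
  split_ifs at h with hk
  · rw [Finset.mem_singleton] at h
    omega
  · rw [Finset.mem_Icc] at h
    exact h

end K

/-- the size of the modulus -/
lemma size_logN {P : ℝ} (hP : 0 ≤ P) (N : ℕ) : ∃ C : ℝ, 0 ≤ C ∧ ∀ (V : ℕ) (q : ℤ), 1 ≤ V →
    (q.natAbs : ℝ) ≤ P * (V : ℝ) ^ N →
    Real.log (Real.log (q.natAbs + 3)) ≤ C + Real.log (Real.log (V + 3)) := by
  have hA : 1 ≤ P + 1 := by linarith
  have hlA : 0 ≤ Real.log (P + 1) := Real.log_nonneg hA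
  have hN0 : (0 : ℝ) ≤ N := Nat.cast_nonneg N
  refine ⟨Real.log (Real.log (P + 1) + (N + 1)), Real.log_nonneg (by linarith),
    fun V q hV hq => ?_⟩
  have hV1 : (1 : ℝ) ≤ V := by exact_mod_cast hV
  have hV3 : (1 : ℝ) ≤ (V : ℝ) + 3 := by linarith
  have h1 : ((q.natAbs : ℝ) + 3) ≤ (P + 1) * ((V : ℝ) + 3) ^ (N + 1) := by
    have a1 : (V : ℝ) ^ N ≤ ((V : ℝ) + 3) ^ (N + 1) := by
      calc (V : ℝ) ^ N ≤ ((V : ℝ) + 3) ^ N := pow_le_pow_left₀ (by positivity) (by linarith) N
        _ ≤ ((V : ℝ) + 3) ^ (N + 1) := pow_le_pow_right₀ hV3 (Nat.le_succ N)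
    have a2 : (3 : ℝ) ≤ ((V : ℝ) + 3) ^ (N + 1) := by
      calc (3 : ℝ) ≤ (V : ℝ) + 3 := by linarith
        _ = ((V : ℝ) + 3) ^ 1 := (pow_one _).symm
        _ ≤ ((V : ℝ) + 3) ^ (N + 1) := pow_le_pow_right₀ hV3 (by omega)
    nlinarith
  have h3 : Real.log 3 ≤ Real.log ((q.natAbs : ℝ) + 3) :=
    Real.log_le_log (by norm_num) (by have : (0 : ℝ) ≤ q.natAbs := Nat.cast_nonneg _; linarith)
  have h3' : 1 ≤ Real.log 3 := by
    rw [Real.le_log_iff_exp_le (by norm_num)]
    have := Real.exp_one_lt_d9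
    linarith
  have h4 : 1 ≤ Real.log ((V : ℝ) + 3) :=
    h3'.trans (Real.log_le_log (by norm_num) (by linarith))
  have h2 : Real.log ((q.natAbs : ℝ) + 3) ≤
      (Real.log (P + 1) + (N + 1)) * Real.log ((V : ℝ) + 3) := by
    calc Real.log ((q.natAbs : ℝ) + 3) ≤ Real.log ((P + 1) * ((V : ℝ) + 3) ^ (N + 1)) :=
          Real.log_le_log (by positivity) h1
      _ = Real.log (P + 1) + (N + 1) * Real.log ((V : ℝ) + 3) := by
          rw [Real.log_mul (by positivity) (by positivity), Real.log_pow]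
          push_cast
          ring
      _ ≤ _ := by nlinarith
  calc Real.log (Real.log ((q.natAbs : ℝ) + 3))
      ≤ Real.log ((Real.log (P + 1) + (N + 1)) * Real.log ((V : ℝ) + 3)) :=
        Real.log_le_log (by linarith) h2
    _ = _ := Real.log_mul (by positivity) (by positivity)

/-- the exponent -/
noncomputable def eta (K : Type) [Fintype K] : ℝ := 1 / (2 * ((Fintype.card K : ℝ) + 1))

lemma eta_pos (K : Type) [Fintype K] : 0 < eta K := by
  unfold eta
  positivity

lemma eta_le (K : Type) [Fintype K] : eta K ≤ 1 / 2 := by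
  unfold eta
  have : (0 : ℝ) ≤ Fintype.card K := Nat.cast_nonneg _
  rw [div_le_div_iff₀ (by positivity) (by norm_num)]
  linarith

theorem prsA (ubq : UBQ) {K R : Type} [Fintype K] [DecidableEq K] [Fintype R] [DecidableEq R]
    (a : R → K → Bool) (c : K → R → ℤ)
    (ha : ∀ j k : K, j ≠ k → ∃ w, a w j ≠ a w k)
    (hc : ∀ j k : K, j ≠ k → ∃ w, (∀ l, a w l = false) ∧ ¬ IsSquare (c j w * c k w))
    (z : ℕ) (hz : 2 ≤ z) : ∃ C : ℝ, 0 ≤ C ∧ ∀ d0 ∈ EE z,
    ∀ g ∈ Fintype.piFinset (fun _ : R => EE z),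
    ∀ (Y V : ℕ) (I : Finset K), 3 ≤ Y → 1 ≤ V → I.Nonempty → ∀ u ∈ UA a z V (gam a c d0 g) I,
      ∑ j : {k // k ∈ I}, ∑ p ∈ PS z Y, ((ThA a (gam a c d0 g) u I j p).card : ℝ) / p ≤
        ((1 - eta K) * Real.log (Real.log Y) + C * (1 + Real.log (Real.log (V + 3)))) *
          2 ^ (Fintype.card {k // k ∈ I} - 1) := by
  classical
  set Cc : ℕ := ∑ j, ∑ w, (c j w).natAbs with hCc
  have hcc : ∀ j w, (c j w).natAbs ≤ Cc := by
    intro j w
    have s1 : (c j w).natAbs ≤ ∑ w, (c j w).natAbs :=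
      single_le_sum (f := fun w => (c j w).natAbs) (fun _ _ => Nat.zero_le _) (mem_univ w)
    have s2 : ∑ w, (c j w).natAbs ≤ Cc :=
      single_le_sum (f := fun j => ∑ w, (c j w).natAbs) (fun _ _ => Nat.zero_le _) (mem_univ j)
    exact s1.trans s2
  obtain ⟨C0, hC0, hM⟩ := Pool.Agent.W554.TW.mert
  obtain ⟨C1, hC1⟩ := ubq z hz
  obtain ⟨C2, hC2, hS⟩ := size_logN (P := (primorial z : ℝ) ^ 2 * (Cc : ℝ)) (by positivity)
    (Fintype.card K)
  refine ⟨C0 + |C1| + C2 + 1, by positivity, ?_⟩
  intro d0 hd0 g hg Y V I hY hV hI u hu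
  have hg' : ∀ w, g w ∈ EE z := fun w => Fintype.mem_piFinset.1 hg w
  have hub := UA_bounds hV hu
  set γ := gam a c d0 g with hγ
  have hpr1 : 1 ≤ primorial z := primorial_pos z
  -- sizes
  have h3' : 1 ≤ Real.log 3 := by
    rw [Real.le_log_iff_exp_le (by norm_num)]
    have := Real.exp_one_lt_d9
    linarith
  have hlY : 0 ≤ Real.log (Real.log Y) := by
    apply Real.log_nonneg
    have h3 : Real.log 3 ≤ Real.log Y :=
      Real.log_le_log (by norm_num) (by exact_mod_cast hY)
    linarith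
  have hlV : 0 ≤ Real.log (Real.log ((V : ℝ) + 3)) := by
    apply Real.log_nonneg
    have hV1 : (1 : ℝ) ≤ V := by exact_mod_cast hV
    have h3 : Real.log 3 ≤ Real.log ((V : ℝ) + 3) :=
      Real.log_le_log (by norm_num) (by linarith)
    linarith
  have hMY := hM z Y hY
  set LY := Real.log (Real.log Y) with hLY
  set LV := Real.log (Real.log ((V : ℝ) + 3)) with hLV
  have habs : C1 ≤ |C1| := le_abs_self _
  have habs0 : 0 ≤ |C1| := abs_nonneg _
  have hcardI : Fintype.card {k // k ∈ I} = I.card := Fintype.card_coe I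
  rw [hcardI]
  have hr1 : 1 ≤ I.card := card_pos.2 hI
  have hr1' : (1 : ℝ) ≤ I.card := by exact_mod_cast hr1
  have hr0 : (0 : ℝ) < I.card := by linarith
  set W : ℝ := 2 ^ (I.card - 1) with hW
  have hW0 : 0 < W := by positivity
  -- general bounds of the inner sums
  have hone : ∀ j : {k // k ∈ I},
      ∑ p ∈ PS z Y, ((ThA a γ u I j p).card : ℝ) / p ≤ W / I.card * (LY + C0) := by
    intro j
    calc ∑ p ∈ PS z Y, ((ThA a γ u I j p).card : ℝ) / p
        ≤ ∑ p ∈ PS z Y, W / I.card * (1 / (p : ℝ)) := by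
          refine sum_le_sum fun p hp => ?_
          rw [mul_one_div]
          refine div_le_div_of_nonneg_right ?_ (Nat.cast_nonneg _)
          rw [le_div_iff₀ hr0]
          have h4 := card_mul a ha γ u I j p
          have h5 : ((ThA a γ u I j p).card : ℝ) * I.card ≤ 2 ^ (I.card - 1) := by
            exact_mod_cast h4
          exact h5
      _ = W / I.card * ∑ p ∈ PS z Y, 1 / (p : ℝ) := by rw [mul_sum]
      _ ≤ W / I.card * (LY + C0) := mul_le_mul_of_nonneg_left hMY (by positivity)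
  obtain ⟨j0, w0, hsq, hemp⟩ := exists_good a c hc d0 g
    (fun w => (Pool.Agent.W554.TW.EE_abs (hg' w)).2) z V I hI u hu
  rw [← hγ] at hsq
  have hhalf : ∑ p ∈ PS z Y, ((ThA a γ u I j0 p).card : ℝ) / p ≤
      W / I.card * (1 / 2 * (LY + C0) + 1 / 2 * (C2 + LV + |C1|)) := by
    set q : ℤ := mm a γ u j0 w0 with hq
    have hqs : (q.natAbs : ℝ) ≤ (primorial z : ℝ) ^ 2 * (Cc : ℝ) * (V : ℝ) ^ Fintype.card K := by
      have b1 : (γ j0 w0).natAbs ≤ primorial z * Cc * primorial z := by
        rw [hγ]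
        unfold gam
        rw [Int.natAbs_mul, Int.natAbs_mul]
        have a1 := (Pool.Agent.W554.TW.EE_abs (hg' w0)).1
        have a2 := hcc j0 w0
        have a3 : (if a w0 (j0 : K) = true then d0 else 1).natAbs ≤ primorial z := by
          split_ifs
          · exact (Pool.Agent.W554.TW.EE_abs hd0).1
          · simpa using hpr1
        gcongr
      have b2 : (∏ k ∈ univ.filter (fun k => a w0 k ≠ a w0 j0), (u k : ℤ)).natAbs ≤
          V ^ Fintype.card K := by
        rw [← Nat.cast_prod, Int.natAbs_natCast]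
        calc ∏ k ∈ univ.filter (fun k => a w0 k ≠ a w0 j0), u k
            ≤ ∏ k ∈ univ.filter (fun k => a w0 k ≠ a w0 j0), V :=
              Finset.prod_le_prod (fun _ _ => Nat.zero_le _) fun k _ => (hub k).2
          _ = V ^ (univ.filter (fun k => a w0 k ≠ a w0 j0)).card := Finset.prod_const _
          _ ≤ V ^ Fintype.card K := by
              refine Nat.pow_le_pow_right hV ?_
              rw [← Finset.card_univ]
              exact Finset.card_le_card (Finset.filter_subset _ _)
      have b3 : q.natAbs ≤ primorial z * Cc * primorial z * V ^ Fintype.card K := by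
        rw [hq]
        unfold mm
        rw [Int.natAbs_mul]
        exact Nat.mul_le_mul b1 b2
      calc (q.natAbs : ℝ) ≤ ((primorial z * Cc * primorial z * V ^ Fintype.card K : ℕ) : ℝ) := by
            exact_mod_cast b3
        _ = _ := by push_cast; ring
    have h1 := hS V q hV hqs
    have h2 := hC1 q hsq Y
    calc ∑ p ∈ PS z Y, ((ThA a γ u I j0 p).card : ℝ) / p
        ≤ ∑ p ∈ PS z Y, W / I.card * (1 / 2 * (1 / (p : ℝ)) + 1 / 2 * (Jr q p / (p : ℝ))) := by
          refine sum_le_sum fun p hp => ?_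
          have hpp := (Pool.Agent.W554.TW.PS_prime hp).1
          have h3 := card_half a ha γ u I j0 p w0 hemp
          rw [← hq] at h3
          have hp0 : (0 : ℝ) < p := by exact_mod_cast hpp.pos
          rw [div_le_iff₀ hp0]
          have h4 : ((ThA a γ u I j0 p).card : ℝ) ≤ W * ((1 + Jr q p) / 2) / I.card := by
            rw [le_div_iff₀ hr0]
            exact h3
          refine h4.trans (le_of_eq ?_)
          field_simp
      _ = W / I.card * (1 / 2 * ∑ p ∈ PS z Y, 1 / (p : ℝ) +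
          1 / 2 * ∑ p ∈ PS z Y, Jr q p / (p : ℝ)) := by
          rw [← mul_sum, sum_add_distrib, mul_sum, mul_sum]
      _ ≤ _ := by
          have h4 : ∑ p ∈ PS z Y, Jr q p / (p : ℝ) ≤ C2 + LV + |C1| := by linarith
          apply mul_le_mul_of_nonneg_left _ (by positivity)
          linarith
  -- the total
  have htot : ∑ j : {k // k ∈ I}, ∑ p ∈ PS z Y, ((ThA a γ u I j p).card : ℝ) / p ≤
      (I.card - 1) * (W / I.card * (LY + C0)) +
        W / I.card * (1 / 2 * (LY + C0) + 1 / 2 * (C2 + LV + |C1|)) := by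
    rw [← Finset.sum_erase_add _ _ (Finset.mem_univ j0)]
    refine add_le_add ?_ hhalf
    calc ∑ j ∈ univ.erase j0, ∑ p ∈ PS z Y, ((ThA a γ u I j p).card : ℝ) / p
        ≤ ∑ _j ∈ (univ : Finset {k // k ∈ I}).erase j0, W / I.card * (LY + C0) :=
          sum_le_sum fun j _ => hone j
      _ = _ := by
          rw [sum_const, Finset.card_erase_of_mem (Finset.mem_univ j0), Finset.card_univ, hcardI,
            nsmul_eq_mul, Nat.cast_sub hr1, Nat.cast_one]
  refine htot.trans ?_
  have hrK : (I.card : ℝ) ≤ (Fintype.card K : ℝ) + 1 := by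
    have : I.card ≤ Fintype.card K := by
      rw [← Finset.card_univ]
      exact Finset.card_le_card (Finset.subset_univ I)
    have : (I.card : ℝ) ≤ Fintype.card K := by exact_mod_cast this
    linarith
  have heta : eta K ≤ 1 / (2 * I.card) := by
    unfold eta
    apply one_div_le_one_div_of_le (by positivity)
    linarith
  have e1 : (I.card - 1) * (W / I.card * (LY + C0)) +
        W / I.card * (1 / 2 * (LY + C0) + 1 / 2 * (C2 + LV + |C1|)) =
      W * ((1 - 1 / (2 * I.card)) * (LY + C0) + 1 / (2 * I.card) * (C2 + LV + |C1|)) := by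
    field_simp
    ring
  rw [e1, mul_comm W]
  apply mul_le_mul_of_nonneg_right _ hW0.le
  set t : ℝ := 1 / (2 * (I.card : ℝ)) with ht
  have ht0 : 0 ≤ t := by positivity
  have ht1 : t ≤ 1 := by
    rw [ht, div_le_one (by positivity)]
    linarith
  have e2 : (1 - t) * LY ≤ (1 - eta K) * LY := mul_le_mul_of_nonneg_right (by linarith) hlY
  have e3 : (1 - t) * C0 ≤ C0 := by nlinarith
  have e4 : t * (C2 + LV + |C1|) ≤ C2 + LV + |C1| := by
    have : 0 ≤ C2 + LV + |C1| := by positivity
    nlinarith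
  have e5 : 0 ≤ (C0 + |C1| + C2) * LV := by positivity
  nlinarith

end Run7.h831.D3
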