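import Pool.Agent.Run7.h831.D3prs
import Pool.Agent.W311.TW.Red3
import Pool.Agent.Run7.h369.D3.Stm

/-!
# Project D3 (helper369): reduction to tuples

Adapted from `Pool/Agent/W262/G3/Red.lean` by helper262 and `Pool/Agent/W311/TW/Red3.lean` by helper311.
-/

set_option autoImplicit false

namespace Run7.h831.D3

open Finset Pool.Agent.W262.RK Pool.Agent.W262.TW Pool.Agent.W311.TW Pool.Agent.Run7.h369.D3

section P

variable {K : Type} [DecidableEq K]

/-- the product of the primes of type `j` -/
def DD (P : Finset ℕ) (τ : ℕ → Option K) (j : K) : ℕ := ∏ p ∈ P.filter (fun p => τ p = some j), p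

lemma dvd_DD {P : Finset ℕ} (hP : ∀ p ∈ P, p.Prime) {τ : ℕ → Option K} {j : K} {p : ℕ}
    (hp : p.Prime) : p ∣ DD P τ j ↔ p ∈ P ∧ τ p = some j := by
  unfold DD
  rw [Prime.dvd_finsetProd_iff hp.prime]
  constructor
  · rintro ⟨q, hq, hpq⟩
    rw [Finset.mem_filter] at hq
    have : p = q := (Nat.prime_dvd_prime_iff_eq hp (hP q hq.1)).mp hpq
    subst this
    exact hq
  · intro h
    exact ⟨p, Finset.mem_filter.2 h, dvd_rfl⟩

lemma prod_DD (P : Finset ℕ) (τ : ℕ → Option K) (S : Finset K) :
    ∏ j ∈ S, DD P τ j = ∏ p ∈ P.filter (fun p => ∃ j ∈ S, τ p = some j), p := by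
  unfold DD
  rw [← Finset.prod_biUnion]
  · apply Finset.prod_congr _ (fun _ _ => rfl)
    ext p
    simp only [Finset.mem_biUnion, Finset.mem_filter]
    constructor
    · rintro ⟨j, hj, hp, h⟩
      exact ⟨hp, j, hj, h⟩
    · rintro ⟨hp, j, hj, h⟩
      exact ⟨j, hj, hp, h⟩
  · intro i _ j _ hij
    rw [Function.onFun, Finset.disjoint_left]
    intro p hp hp'
    rw [Finset.mem_filter] at hp hp'
    rw [hp.2] at hp'
    exact hij (Option.some.inj hp'.2)

end P

section K

variable {K R : Type} [Fintype K] [DecidableEq K] [Fintype R] [DecidableEq R]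

theorem redA (a : R → K → Bool) (c : K → R → ℤ) (z0 z : ℕ) (hz : z0 ≤ z) (X : ℕ) :
    {d : ℤ | d.natAbs ≤ X ∧ Squarefree d ∧ SelA a c z0 d}.ncard ≤
      ∑ x ∈ (EE z) ×ˢ (Fintype.piFinset (fun _ : R => EE z)),
        (cntAF a z X (gam a c x.1 x.2)).card := by
  classical
  set Tt : Finset (Σ _ : ℤ × (R → ℤ), K → ℕ) :=
    ((EE z) ×ˢ (Fintype.piFinset (fun _ : R => EE z))).sigma
      (fun x => cntAF a z X (gam a c x.1 x.2)) with hTt
  have hcard : Tt.card = ∑ x ∈ (EE z) ×ˢ (Fintype.piFinset (fun _ : R => EE z)),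
      (cntAF a z X (gam a c x.1 x.2)).card := by
    rw [hTt, Finset.card_sigma]
  rw [← hcard]
  have hsub : {d : ℤ | d.natAbs ≤ X ∧ Squarefree d ∧ SelA a c z0 d} ⊆
      ((Tt.image (fun x => x.1.1 * ((∏ k, x.2 k : ℕ) : ℤ)) : Finset ℤ) : Set ℤ) := by
    rintro d ⟨hdX, hd, s, hs, hs1, hs2, hNC⟩
    have hd0 : d.natAbs ≠ 0 := by
      rw [Int.natAbs_ne_zero]; exact hd.ne_zero
    set P : Finset ℕ := d.natAbs.primeFactors.filter (fun p => z < p) with hP
    have hPm : ∀ p, p ∈ P ↔ p.Prime ∧ (p : ℤ) ∣ d ∧ z < p := by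
      intro p
      rw [hP, Finset.mem_filter, Nat.mem_primeFactors, Int.natCast_dvd]
      constructor
      · rintro ⟨⟨h1, h2, -⟩, h3⟩
        exact ⟨h1, h2, h3⟩
      · rintro ⟨h1, h2, h3⟩
        exact ⟨⟨h1, h2, hd0⟩, h3⟩
    have hPp : ∀ p ∈ P, p.Prime := fun p hp => ((hPm p).1 hp).1
    obtain ⟨τ, hτ⟩ : ∃ τ : ℕ → Option K, ∀ p ∈ P, ∃ j, τ p = some j ∧ LC a c d s p j := by
      have h1 : ∀ p ∈ P, ∃ j, LC a c d s p j := by
        intro p hp
        have h2 := (hPm p).1 hp
        exact hs2 p h2.1 (lt_of_le_of_lt hz h2.2.2) h2.2.1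
      choose t ht using h1
      refine ⟨fun p => if h : p ∈ P then some (t p h) else none, fun p hp => ⟨t p hp, ?_, ht p hp⟩⟩
      exact dif_pos hp
    have hτ' : ∀ p ∈ P, ∀ j, τ p = some j → LC a c d s p j := by
      intro p hp j hj
      obtain ⟨j', h1, h2⟩ := hτ p hp
      rw [hj] at h1
      rw [Option.some.inj h1]
      exact h2
    set D : K → ℕ := DD P τ with hD
    have hDd : ∏ k, D k = Dz z d := by
      rw [hD, prod_DD]
      unfold Dz
      apply Finset.prod_congr _ (fun _ _ => rfl)
      ext p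
      rw [Finset.mem_filter]
      constructor
      · exact fun h => h.1
      · intro h
        obtain ⟨j, hj, -⟩ := hτ p h
        exact ⟨h, j, Finset.mem_univ _, hj⟩
    have hDs : ∀ w, ∏ k ∈ univ.filter (fun k => a w k = true), D k = Dz z (s w) := by
      intro w
      have hsw0 : (s w).natAbs ≠ 0 := by
        rw [Int.natAbs_ne_zero]; exact (hs w).ne_zero
      rw [hD, prod_DD]
      unfold Dz
      apply Finset.prod_congr _ (fun _ _ => rfl)
      ext p
      simp only [Finset.mem_filter, Finset.mem_univ, true_and, Nat.mem_primeFactors]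
      constructor
      · rintro ⟨hp, j, hj, hpj⟩
        have h1 := hτ' p hp j hpj
        have h2 := (hPm p).1 hp
        exact ⟨⟨h2.1, Int.natCast_dvd.1 ((h1 w).1 hj).1, hsw0⟩, h2.2.2⟩
      · rintro ⟨⟨hp, hps, -⟩, hzp⟩
        have hps' : (p : ℤ) ∣ s w := Int.natCast_dvd.2 hps
        have hpd : (p : ℤ) ∣ d := by
          by_contra h
          exact hs1 p hp (lt_of_le_of_lt hz hzp) h w hps'
        have hpP : p ∈ P := (hPm p).2 ⟨hp, hpd, hzp⟩
        obtain ⟨j, hj, hl⟩ := hτ p hpP
        refine ⟨hpP, j, ?_, hj⟩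
        by_contra hne
        exact ((hl w).2 (by simpa using hne)).1 hps'
    have hDpos : ∀ k, 0 < D k := by
      intro k
      rw [hD]
      unfold DD
      apply Finset.prod_pos
      intro p hp
      exact (hPp p (Finset.mem_filter.1 hp).1).pos
    have hDdvd : ∀ k, D k ∣ Dz z d := by
      intro k
      rw [← hDd]
      exact Finset.dvd_prod_of_mem D (Finset.mem_univ k)
    have hDRg : ∀ k, Rg z (D k) := by
      intro k
      refine ⟨(Dz_sqf hd).1.squarefree_of_dvd (hDdvd k), fun p hp hpk => ?_⟩
      exact ((hPm p).1 ((dvd_DD hPp hp).1 hpk).1).2.2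
    have hcop : ∀ i j, i ≠ j → (D i).Coprime (D j) := by
      intro i j hij
      rw [Nat.coprime_iff_gcd_eq_one]
      by_contra hg
      obtain ⟨p, hp, hpd⟩ := Nat.exists_prime_and_dvd hg
      have h1 := ((dvd_DD hPp hp).1 (hpd.trans (Nat.gcd_dvd_left _ _))).2
      have h2 := ((dvd_DD hPp hp).1 (hpd.trans (Nat.gcd_dvd_right _ _))).2
      rw [h1] at h2
      exact hij (Option.some.inj h2)
    choose g hg hgs using fun w => exists_EE (z := z) (hs w)
    obtain ⟨d0, hd0', hdd⟩ := exists_EE (z := z) hd
    have hPX : ∏ k, D k ≤ X := by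
      rw [hDd]
      exact (Dz_le hd).trans hdX
    -- the two products
    have hfalse : ∀ j w, a w j = false → mm a (gam a c d0 g) D j w = s w * c j w := by
      intro j w hj
      unfold mm gam
      have h1 : univ.filter (fun k => a w k ≠ a w j) = univ.filter (fun k => a w k = true) := by
        rw [hj]
        apply Finset.filter_congr
        intro k _
        simp
      rw [h1, if_neg (by rw [hj]; simp), hgs w, ← hDs w]
      push_cast
      ring
    have hAB : ∀ w, (∏ k ∈ univ.filter (fun k => a w k = true), D k) *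
        ∏ k ∈ univ.filter (fun k => ¬ a w k = true), D k = ∏ k, D k := by
      intro w
      exact Finset.prod_filter_mul_prod_filter_not univ (fun k => a w k = true) D
    have htrue : ∀ j w, a w j = true → mm a (gam a c d0 g) D j w =
        g w * c j w * d0 * ((∏ k ∈ univ.filter (fun k => ¬ a w k = true), D k : ℕ) : ℤ) := by
      intro j w hj
      unfold mm gam
      rw [hj, if_pos rfl]
      push_cast
      rfl
    rw [Finset.mem_coe, Finset.mem_image]
    refine ⟨⟨(d0, g), D⟩, ?_, ?_⟩
    · rw [hTt, Finset.mem_sigma, Finset.mem_product]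
      refine ⟨⟨hd0', Fintype.mem_piFinset.mpr hg⟩, ?_⟩
      rw [mem_cntAF]
      refine ⟨fun k => ?_, hDRg, hcop, hPX, ?_, ?_⟩
      · rw [Finset.mem_Icc]
        refine ⟨hDpos k, le_trans ?_ hPX⟩
        exact Nat.le_of_dvd (Finset.prod_pos fun k _ => hDpos k)
          (Finset.dvd_prod_of_mem D (Finset.mem_univ k))
      · intro j p hp w
        have hpp := Nat.prime_of_mem_primeFactors hp
        have hpj : p ∣ D j := Nat.dvd_of_mem_primeFactors hp
        obtain ⟨hpP, hpt⟩ := (dvd_DD hPp hpp).1 hpj
        have hL := hτ' p hpP j hpt w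
        rcases hb : a w j with _ | _
        · rw [hfalse j w hb]
          exact (hL.2 hb).2
        · show jacobiSym (mm a (gam a c d0 g) D j w) p = 1
          rw [htrue j w hb]
          have h1 := (hL.1 hb).2
          have hmem : j ∈ univ.filter (fun k => a w k = true) := by
            rw [Finset.mem_filter]; exact ⟨Finset.mem_univ _, hb⟩
          have hpA : p ∣ ∏ k ∈ univ.filter (fun k => a w k = true), D k :=
            hpj.trans (Finset.dvd_prod_of_mem D hmem)
          obtain ⟨A', hA'⟩ := hpA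
          have hsqf : Squarefree (p * A') := by
            rw [← hA', hDs w]
            exact (Dz_sqf (hs w)).1
          have hpA' : ¬ p ∣ A' := by
            rintro ⟨e, he⟩
            have h2 : p * p ∣ p * A' := ⟨e, by rw [he]; ring⟩
            have h3 := hsqf p h2
            rw [Nat.isUnit_iff] at h3
            exact hpp.one_lt.ne' h3
          have hp0 : (p : ℤ) ≠ 0 := by exact_mod_cast hpp.ne_zero
          have e1 : s w / p = g w * A' := by
            apply Int.ediv_eq_of_eq_mul_right hp0
            rw [hgs w, ← hDs w, hA']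
            push_cast
            ring
          have e2 : d / p = d0 * A' *
              ((∏ k ∈ univ.filter (fun k => ¬ a w k = true), D k : ℕ) : ℤ) := by
            apply Int.ediv_eq_of_eq_mul_right hp0
            conv_lhs => rw [hdd, ← hDd, ← hAB w, hA']
            push_cast
            ring
          rw [e1, e2] at h1
          have e3 : g w * (A' : ℤ) * (d0 * A' *
              ((∏ k ∈ univ.filter (fun k => ¬ a w k = true), D k : ℕ) : ℤ)) * c j w =
              (g w * c j w * d0 *
                ((∏ k ∈ univ.filter (fun k => ¬ a w k = true), D k : ℕ) : ℤ)) * (A' : ℤ) ^ 2 := by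
            ring
          rw [e3, jacobiSym.mul_left, jacobiSym.sq_one', mul_one] at h1
          · exact h1
          · rw [Int.gcd_natCast_natCast]
            exact ((Nat.Prime.coprime_iff_not_dvd hpp).2 hpA').symm
      · intro j
        obtain ⟨w, hw⟩ := hNC j
        refine ⟨w, ?_⟩
        rcases hb : a w j with _ | _
        · rw [hfalse j w hb]
          rw [hb, if_neg (by simp), mul_one] at hw
          exact hw
        · show ¬ IsSquare (mm a (gam a c d0 g) D j w)
          rw [htrue j w hb]
          rw [hb, if_pos rfl] at hw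
          rintro ⟨y, hy⟩
          apply hw
          refine ⟨y * ((∏ k ∈ univ.filter (fun k => a w k = true), D k : ℕ) : ℤ), ?_⟩
          have e1 : s w = g w * ((∏ k ∈ univ.filter (fun k => a w k = true), D k : ℕ) : ℤ) := by
            rw [hDs w]; exact hgs w
          have e2 : d = d0 * (((∏ k ∈ univ.filter (fun k => a w k = true), D k : ℕ) : ℤ) *
              ((∏ k ∈ univ.filter (fun k => ¬ a w k = true), D k : ℕ) : ℤ)) := by
            rw [← Nat.cast_mul, hAB w, hDd]
            exact hdd
          set A : ℤ := ((∏ k ∈ univ.filter (fun k => a w k = true), D k : ℕ) : ℤ) with hA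
          set B : ℤ := ((∏ k ∈ univ.filter (fun k => ¬ a w k = true), D k : ℕ) : ℤ) with hB
          rw [e1, e2]
          calc g w * A * c j w * (d0 * (A * B)) = (g w * c j w * d0 * B) * (A * A) := by ring
            _ = (y * y) * (A * A) := by rw [hy]
            _ = y * A * (y * A) := by ring
    · show d0 * ((∏ k, D k : ℕ) : ℤ) = d
      rw [hDd]
      exact hdd.symm
  calc _ ≤ ((Tt.image (fun x => x.1.1 * ((∏ k, x.2 k : ℕ) : ℤ)) : Finset ℤ) : Set ℤ).ncard :=
        Set.ncard_le_ncard hsub (Finset.finite_toSet _)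
    _ = (Tt.image (fun x => x.1.1 * ((∏ k, x.2 k : ℕ) : ℤ)) : Finset ℤ).card :=
        Set.ncard_coe_finset _
    _ ≤ Tt.card := Finset.card_image_le

end K

end Run7.h831.D3
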