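import Mathlib
import Pool.Agent.W262.TW.Stm2

/-!
# Project D3 (helper369): small and large variables

Adapted from `Pool/Agent/W762/TW/Regs.lean` by helper762.
-/

set_option autoImplicit false

namespace Run7.h831.D3

open Finset Pool.Agent.W262.RK Pool.Agent.W262.TW

section K

variable {K R : Type} [Fintype K] [DecidableEq K] [Fintype R]

/-- the number whose symbol is prescribed -/
def mm (a : R → K → Bool) (γ : K → R → ℤ) (u : K → ℕ) (j : K) (w : R) : ℤ :=
  γ j w * ∏ k ∈ univ.filter (fun k => a w k ≠ a w j), (u k : ℤ)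

open Classical in
/-- the set of the tuples -/
noncomputable def cntAF (a : R → K → Bool) (z Y : ℕ) (γ : K → R → ℤ) : Finset (K → ℕ) :=
  (Fintype.piFinset (fun _ : K => Icc 1 Y)).filter (fun D => (∀ i, Rg z (D i)) ∧
    (∀ i j, i ≠ j → (D i).Coprime (D j)) ∧ ∏ i, D i ≤ Y ∧
    (∀ j, ∀ p ∈ (D j).primeFactors, ∀ w, jacobiSym (mm a γ D j w) p = 1) ∧
    ∀ j, ∃ w, ¬ IsSquare (mm a γ D j w))

open Classical in
theorem mem_cntAF {a : R → K → Bool} {z Y : ℕ} {γ : K → R → ℤ} {D : K → ℕ} :
    D ∈ cntAF a z Y γ ↔ (∀ i, D i ∈ Icc 1 Y) ∧ (∀ i, Rg z (D i)) ∧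
    (∀ i j, i ≠ j → (D i).Coprime (D j)) ∧ ∏ i, D i ≤ Y ∧
    (∀ j, ∀ p ∈ (D j).primeFactors, ∀ w, jacobiSym (mm a γ D j w) p = 1) ∧
    ∀ j, ∃ w, ¬ IsSquare (mm a γ D j w) := by
  unfold cntAF
  rw [Finset.mem_filter, Fintype.mem_piFinset]

/-- the sign patterns on `I` -/
def ThA (a : R → K → Bool) (γ : K → R → ℤ) (u : K → ℕ) (I : Finset K) (j : {k // k ∈ I}) (p : ℕ) :
    Finset (Finset {k // k ∈ I}) :=
  ((univ.erase j).powerset).filter (fun N => ∀ w, jacobiSym (mm a γ u j w) p *
    (-1) ^ (N.filter (fun k : {k // k ∈ I} => a w k ≠ a w j)).card = 1)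

open Classical in
/-- the small variables -/
noncomputable def UA (a : R → K → Bool) (z V : ℕ) (γ : K → R → ℤ) (I : Finset K) :
    Finset (K → ℕ) :=
  (Fintype.piFinset (fun k : K => if k ∈ I then {1} else Icc 1 V)).filter (fun u =>
    (∀ k, Rg z (u k)) ∧ (∀ j, I = {j} → ∃ w, ¬ IsSquare (mm a γ u j w)))

open Classical in
theorem mem_UA {a : R → K → Bool} {z V : ℕ} {γ : K → R → ℤ} {I : Finset K} {u : K → ℕ} :
    u ∈ UA a z V γ I ↔
    (∀ k, u k ∈ (if k ∈ I then {1} else Icc 1 V : Finset ℕ)) ∧
    (∀ k, Rg z (u k)) ∧ (∀ j, I = {j} → ∃ w, ¬ IsSquare (mm a γ u j w)) := by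
  unfold UA
  rw [Finset.mem_filter, Fintype.mem_piFinset]

open Classical in
/-- the finite set counted by `cnt` -/
noncomputable def cntF {K : Type} [Fintype K] [DecidableEq K] (z Y V : ℕ) (κ : K → ℤ)
    (Θ : K → ℕ → Finset (Finset K)) : Finset (K → ℕ) :=
  (Fintype.piFinset (fun _ : K => Icc 1 Y)).filter (fun D => (∀ i, Rg z (D i) ∧ V < D i) ∧
    (∀ i j, i ≠ j → (D i).Coprime (D j)) ∧ ∏ i, D i ≤ Y ∧
    ∀ i, ∀ p ∈ (D i).primeFactors, ngs (fun k => κ k * D k) i p ∈ Θ i p)

theorem cnt_eq {K : Type} [Fintype K] [DecidableEq K] (z Y V : ℕ) (κ : K → ℤ)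
    (Θ : K → ℕ → Finset (Finset K)) : cnt z Y V κ Θ = (cntF z Y V κ Θ).card := rfl

open Classical in
theorem mem_cntF {K : Type} [Fintype K] [DecidableEq K] {z Y V : ℕ} {κ : K → ℤ}
    {Θ : K → ℕ → Finset (Finset K)} {D : K → ℕ} : D ∈ cntF z Y V κ Θ ↔
    (∀ i, D i ∈ Icc 1 Y) ∧ (∀ i, Rg z (D i) ∧ V < D i) ∧
    (∀ i j, i ≠ j → (D i).Coprime (D j)) ∧ ∏ i, D i ≤ Y ∧
    ∀ i, ∀ p ∈ (D i).primeFactors, ngs (fun k => κ k * D k) i p ∈ Θ i p := by
  unfold cntF
  rw [Finset.mem_filter, Fintype.mem_piFinset]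

/-- gluing -/
def glue {K : Type} [DecidableEq K] (I : Finset K) (u : K → ℕ) (D : {k // k ∈ I} → ℕ) : K → ℕ :=
  fun k => if h : k ∈ I then D ⟨k, h⟩ else u k

lemma jac_prod {ι : Type} (s : Finset ι) (f : ι → ℤ) (p : ℕ) :
    jacobiSym (∏ i ∈ s, f i) p = ∏ i ∈ s, jacobiSym (f i) p := by
  classical
  induction s using Finset.induction_on with
  | empty => simp
  | insert i s hi ih => rw [Finset.prod_insert hi, Finset.prod_insert hi, jacobiSym.mul_left, ih]

/-- the sign pattern determines the symbol -/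
lemma jac_pattern (a : R → K → Bool) (γ : K → R → ℤ) (D u : K → ℕ) (I : Finset K)
    (huI : ∀ k, k ∈ I → u k = 1) (hunI : ∀ k, k ∉ I → u k = D k)
    (hcop : ∀ i j, i ≠ j → (D i).Coprime (D j)) (j : {k // k ∈ I}) (p : ℕ) (hp : p.Prime)
    (hpj : p ∣ D j) (w : R) :
    jacobiSym (mm a γ D j w) p = jacobiSym (mm a γ u j w) p *
      (-1) ^ ((ngs (fun k : {k // k ∈ I} => (1 : ℤ) * (D k : ℤ)) j p).filter
        (fun k : {k // k ∈ I} => a w k ≠ a w j)).card := by
  classical
  have h1 : ∏ k ∈ univ.filter (fun k => a w k ≠ a w j), (D k : ℤ) =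
      (∏ k ∈ univ.filter (fun k => a w k ≠ a w j), (u k : ℤ)) *
      ∏ k ∈ (univ : Finset {k // k ∈ I}).filter (fun k : {k // k ∈ I} => a w k ≠ a w j), ((D k : ℕ) : ℤ) := by
    have h2 : ∏ k ∈ (univ : Finset {k // k ∈ I}).filter (fun k : {k // k ∈ I} => a w k ≠ a w j), ((D k : ℕ) : ℤ) =
        ∏ k ∈ univ.filter (fun k => a w k ≠ a w j), (if k ∈ I then (D k : ℤ) else 1) := by
      rw [Finset.prod_filter, Finset.prod_filter]
      rw [Finset.prod_coe_sort I (fun k => if a w k ≠ a w j then ((D k : ℕ) : ℤ) else 1)]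
      rw [← Finset.prod_subset (Finset.subset_univ I)]
      · refine Finset.prod_congr rfl fun k hk => ?_
        rw [if_pos hk]
      · intro k _ hk
        rw [if_neg hk]
        split_ifs <;> rfl
    rw [h2, ← Finset.prod_mul_distrib]
    refine Finset.prod_congr rfl fun k _ => ?_
    by_cases hk : k ∈ I
    · rw [if_pos hk, huI k hk]; simp
    · rw [if_neg hk, hunI k hk]; simp
  have h3 : ∏ k ∈ (univ : Finset {k // k ∈ I}).filter (fun k : {k // k ∈ I} => a w k ≠ a w j),
      jacobiSym ((D k : ℕ) : ℤ) p = (-1) ^ ((ngs (fun k : {k // k ∈ I} => (1 : ℤ) * (D k : ℤ)) j p).filter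
        (fun k : {k // k ∈ I} => a w k ≠ a w j)).card := by
    have h4 : ∀ k ∈ (univ : Finset {k // k ∈ I}).filter (fun k : {k // k ∈ I} => a w k ≠ a w j),
        jacobiSym ((D k : ℕ) : ℤ) p =
          if k ∈ ngs (fun k : {k // k ∈ I} => (1 : ℤ) * (D k : ℤ)) j p then -1 else 1 := by
      intro k hk
      rw [Finset.mem_filter] at hk
      have hkj : k ≠ j := by
        rintro rfl
        exact hk.2 rfl
      have hkj' : (k : K) ≠ j := fun h => hkj (Subtype.ext h)
      have hc : Int.gcd ((D k : ℕ) : ℤ) p = 1 := by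
        rw [Int.gcd_natCast_natCast]
        have h5 := hcop k j hkj'
        exact Nat.Coprime.coprime_dvd_right hpj h5
      have hor := jacobiSym.eq_one_or_neg_one hc
      unfold ngs
      simp only [Finset.mem_filter, Finset.mem_univ, true_and, one_mul]
      split_ifs with h
      · exact h.2
      · rcases hor with h6 | h6
        · exact h6
        · exact absurd ⟨hkj, h6⟩ h
    rw [Finset.prod_congr rfl h4, Finset.prod_ite, Finset.prod_const_one, mul_one,
      Finset.prod_const]
    congr 2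
    ext k
    simp only [Finset.mem_filter, Finset.mem_univ, true_and]
    tauto
  unfold mm
  rw [h1, ← mul_assoc, jacobiSym.mul_left, jac_prod, h3]

theorem regsA (a : R → K → Bool) (z X V : ℕ) (γ : K → R → ℤ) (_hV : 1 ≤ V) :
    (cntAF a z X γ).card ≤ V ^ Fintype.card K +
    ∑ I ∈ univ.filter (fun I : Finset K => I.Nonempty), ∑ u ∈ UA a z V γ I,
      cnt z (X / ∏ k, u k) V (fun _ : {k // k ∈ I} => (1 : ℤ)) (ThA a γ u I) := by
  classical
  have hsub : cntAF a z X γ ⊆ Fintype.piFinset (fun _ : K => Icc 1 V) ∪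
      (univ.filter (fun I : Finset K => I.Nonempty)).biUnion (fun I =>
        (UA a z V γ I).biUnion (fun u =>
          (cntF z (X / ∏ k, u k) V (fun _ : {k // k ∈ I} => (1 : ℤ)) (ThA a γ u I)).image
            (glue I u))) := by
    intro D hD
    rw [mem_cntAF] at hD
    obtain ⟨hD1, hD2, hD3, hD4, hD5, hD6⟩ := hD
    rw [Finset.mem_union]
    by_cases hall : ∀ k, D k ≤ V
    · left
      rw [Fintype.mem_piFinset]
      intro k
      have := hD1 k
      rw [Finset.mem_Icc] at this ⊢
      exact ⟨this.1, hall k⟩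
    · right
      push Not at hall
      obtain ⟨k0, hk0⟩ := hall
      set I : Finset K := univ.filter (fun k => V < D k) with hI
      have hmI : ∀ k, k ∈ I ↔ V < D k := fun k => by
        rw [hI, Finset.mem_filter]
        simp
      set u : K → ℕ := fun k => if k ∈ I then 1 else D k with hu
      have huI : ∀ k, k ∈ I → u k = 1 := fun k hk => by rw [hu]; exact if_pos hk
      have hunI : ∀ k, k ∉ I → u k = D k := fun k hk => by rw [hu]; exact if_neg hk
      have hD0 : ∀ k, 0 < D k := fun k => by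
        have := hD1 k
        rw [Finset.mem_Icc] at this
        omega
      have hu0 : ∀ k, 0 < u k := by
        intro k
        by_cases hk : k ∈ I
        · rw [huI k hk]; exact one_pos
        · rw [hunI k hk]; exact hD0 k
      have hprod : (∏ k : {k // k ∈ I}, D k) * ∏ k, u k = ∏ k, D k := by
        have h1 : ∏ k : {k // k ∈ I}, D k = ∏ k, if k ∈ I then D k else 1 := by
          rw [Finset.prod_ite_mem, Finset.univ_inter, Finset.prod_coe_sort I D]
        rw [h1, ← Finset.prod_mul_distrib]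
        refine Finset.prod_congr rfl fun k _ => ?_
        by_cases hk : k ∈ I
        · rw [if_pos hk, huI k hk, mul_one]
        · rw [if_neg hk, hunI k hk, one_mul]
      have hprodle : ∏ k : {k // k ∈ I}, D k ≤ X / ∏ k, u k := by
        rw [Nat.le_div_iff_mul_le (Finset.prod_pos fun k _ => hu0 k), hprod]
        exact hD4
      rw [Finset.mem_biUnion]
      refine ⟨I, Finset.mem_filter.2 ⟨Finset.mem_univ _, ⟨k0, (hmI k0).2 hk0⟩⟩, ?_⟩
      rw [Finset.mem_biUnion]
      refine ⟨u, ?_, ?_⟩
      · rw [mem_UA]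
        refine ⟨fun k => ?_, fun k => ?_, fun i hi => ?_⟩
        · by_cases hk : k ∈ I
          · rw [if_pos hk, Finset.mem_singleton]
            exact huI k hk
          · rw [if_neg hk, Finset.mem_Icc, hunI k hk]
            exact ⟨hD0 k, not_lt.1 fun h => hk ((hmI k).2 h)⟩
        · by_cases hk : k ∈ I
          · rw [huI k hk]
            refine ⟨squarefree_one, fun p hp hp1 => ?_⟩
            exact absurd (Nat.dvd_one.1 hp1) hp.one_lt.ne'
          · rw [hunI k hk]
            exact hD2 k
        · obtain ⟨w, hw⟩ := hD6 i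
          refine ⟨w, ?_⟩
          have he : mm a γ u i w = mm a γ D i w := by
            unfold mm
            congr 1
            refine Finset.prod_congr rfl fun k hk => ?_
            rw [Finset.mem_filter] at hk
            have hki : k ≠ i := by
              rintro rfl
              exact hk.2 rfl
            have hkI : k ∉ I := by rw [hi, Finset.mem_singleton]; exact hki
            rw [hunI k hkI]
          rw [he]
          exact hw
      · rw [Finset.mem_image]
        refine ⟨fun k => D k, ?_, ?_⟩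
        · rw [mem_cntF]
          refine ⟨fun i => ?_, fun i => ⟨hD2 i, (hmI i).1 i.2⟩, fun i j hij => ?_, hprodle,
            fun i p hp => ?_⟩
          · rw [Finset.mem_Icc]
            refine ⟨hD0 i, le_trans ?_ hprodle⟩
            exact Nat.le_of_dvd (Finset.prod_pos fun k _ => hD0 k)
              (Finset.dvd_prod_of_mem (fun k : {k // k ∈ I} => D k) (Finset.mem_univ i))
          · exact hD3 i j fun h => hij (Subtype.ext h)
          · have hp1 : p.Prime := Nat.prime_of_mem_primeFactors hp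
            have hp2 : p ∣ D i := Nat.dvd_of_mem_primeFactors hp
            unfold ThA
            rw [Finset.mem_filter]
            refine ⟨?_, fun w => ?_⟩
            · rw [Finset.mem_powerset]
              intro k hk
              unfold ngs at hk
              rw [Finset.mem_filter] at hk
              rw [Finset.mem_erase]
              exact ⟨hk.2.1, Finset.mem_univ _⟩
            · rw [← jac_pattern a γ D u I huI hunI hD3 i p hp1 hp2 w]
              exact hD5 i p hp w
        · funext k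
          unfold glue
          by_cases hk : k ∈ I
          · rw [dif_pos hk]
          · rw [dif_neg hk, hunI k hk]
  refine (Finset.card_le_card hsub).trans ((Finset.card_union_le _ _).trans ?_)
  refine Nat.add_le_add (le_of_eq ?_) ?_
  · rw [Fintype.card_piFinset, Finset.prod_const, Finset.card_univ, Nat.card_Icc,
      Nat.add_sub_cancel]
  · refine Finset.card_biUnion_le.trans (Finset.sum_le_sum fun I _ => ?_)
    refine Finset.card_biUnion_le.trans (Finset.sum_le_sum fun u _ => ?_)
    rw [cnt_eq]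
    exact Finset.card_image_le

end K

end Run7.h831.D3
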